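import Pool.Agent.W2helper58.GU.Fin
import Pool.Agent.W2helper17.GU.PH
import Pool.Agent.W2helper71.GU.Up

/-!
# An oracle with complete disjoint coNP pairs, optimal proof systems and an infinite hierarchy

There is an oracle `O` relative to which the polynomial hierarchy is infinite, every nonempty language in `PSPACE` has a
p-optimal proof system, and there are complete disjoint `coNP` pairs and complete disjoint `NP` pairs.

Proof. The oracle has four columns `A`, `B`, `U`, `C`. The columns `U` and `C` are fixed. `U` tells the bits of the next
actions of all polynomial-time oracle algorithms (all descriptions of algorithms which first compare finitely many values of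
the oracle with given values, and give up if they differ), so that there is a universal algorithm (`GU/UE.lean`); `C` is a
guide, defined by recursion on the length of the strings: for an algorithm `h`, an input `y` and a time bound `t` it tells
whether the promise in question (the output is in the given language in `PSPACE`; at least one of two given algorithms has a
witness; ...) is satisfied relative to ALL columns `A` and `B` together with `U` and `C` (`GU/Guide.lean`, `GU/Fam.lean`; only
the shorter strings of `C` matter). `A` is a generic oracle, and `B` is generic among the oracles with at most one string of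
each length. Since a violation of a promise is seen from finitely many values of the oracle, a promise which is satisfied
relative to the generic `A`, `B` is already satisfied relative to all `A'`, `B'` which coincide with them up to some length
(`GU/Gen.lean`); so the guide certifies the promise for the algorithm guarded by these values. The complete pairs and the
optimal proof systems consist of the certified computations (`GU/Opt.lean`, `GU/Cmp.lean`).

The lower bounds for the levels of the hierarchy relative to a generic `A` and arbitrary other columns (helper17,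
`W2helper17/GU/PH.lean`) use the average-case hierarchy theorem of the starting library (`H591R3/PHG`); the lower bounds for
the tally languages are by helper71 (`W2helper71/GU`).
-/

set_option autoImplicit false

namespace Pool.Agent.Results.MP_46935e_lc.CompletePairsInfiniteHierarchy

open Pool.Agent.H622R2 Pool.Agent.H620R2.Gauge Pool.Agent.H591R3.PHG Pool.Agent.NPC Pool.Agent.W2helper58.GU

theorem result : ∃ O : Oracle,
    -- the polynomial hierarchy is infinite
    (∀ k : ℕ, ∃ L, IsSig O (k + 1) L ∧ ¬ IsSig O k L) ∧
    -- there is a complete disjoint `coNP` pair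
    (∃ K₀ K₁, W2helper58.GU.IsCoNP O K₀ ∧ W2helper58.GU.IsCoNP O K₁ ∧ Disjoint K₀ K₁ ∧ ∀ L₀ L₁, W2helper58.GU.IsCoNP O L₀ → W2helper58.GU.IsCoNP O L₁ →
      Disjoint L₀ L₁ → ∃ F : List Bool → List Bool, PolyTime F ∧
        ∀ x, (x ∈ L₀ ↔ F x ∈ K₀) ∧ (x ∈ L₁ ↔ F x ∈ K₁)) ∧
    -- there is a complete disjoint `NP` pair
    (∃ K₀ K₁, W2helper58.GU.IsNP O K₀ ∧ W2helper58.GU.IsNP O K₁ ∧ Disjoint K₀ K₁ ∧ ∀ L₀ L₁, W2helper58.GU.IsNP O L₀ → W2helper58.GU.IsNP O L₁ →
      Disjoint L₀ L₁ → ∃ F : List Bool → List Bool, PolyTime F ∧
        ∀ x, (x ∈ L₀ ↔ F x ∈ K₀) ∧ (x ∈ L₁ ↔ F x ∈ K₁)) ∧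
    -- every nonempty language in `PSPACE` has a p-optimal proof system
    (∀ L, IsPSPACE O L → L.Nonempty → ∃ f : List Bool → List Bool, IsFP O f ∧ Set.range f = L ∧
      ∀ g : List Bool → List Bool, IsFP O g → (∀ x, g x ∈ L) →
        ∃ τ : List Bool → List Bool, PolyTime τ ∧ ∀ x, g x = f (τ x)) ∧
    -- some tally language is in `UP` and not in `P`
    ∃ L, (∀ x ∈ L, x = List.replicate x.length true) ∧ W2helper58.GU.IsUP O L ∧ ¬ IsP O L := by
  obtain ⟨O, h1, h2, _, _, h5, h6, h7⟩ :=
    final Pool.Agent.W2helper17.GU.s_PH Pool.Agent.W2helper17.GU.s_SIG
      Pool.Agent.W2helper71.GU.s_pup Pool.Agent.W2helper71.GU.s_upnp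
  exact ⟨O, h1, h5, h6, h7, h2⟩

end Pool.Agent.Results.MP_46935e_lc.CompletePairsInfiniteHierarchy
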