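import Pool.Agent.W2helper61.SM.Chain

/-!
For every exponent `k`, no disjoint coNP pair is complete under reductions computable in
time `O(n^k)`.
-/

set_option autoImplicit false

open N08b01508 N68a2faeb

namespace Pool.Agent.Results.MP_46935e_lc.NoFixedPolyComplete

open Pool.Agent.W2helper61.SM

theorem result (k : ℕ) (A B : DecisionProblem) (h : IsDisjointCoNPPair A B) :
    ∃ A' B' : DecisionProblem, IsDisjointCoNPPair A' B' ∧
      ∀ f : List Bool → List Bool, TimePow k f →
        ¬ ((∀ x, A' x = true → A (f x) = true) ∧ (∀ x, B' x = true → B (f x) = true)) :=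
  pairs_main k A B h

end Pool.Agent.Results.MP_46935e_lc.NoFixedPolyComplete
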