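import Pool.Agent.W2helper58.RU.Done

/-!
# Relative to a random oracle there is no complete disjoint coNP pair

For almost every oracle `A` no disjoint pair of languages in `coNP^A` is complete: for every disjoint `coNP^A` pair
`(K₀, K₁)` there is a disjoint `coNP^A` pair `(L₀, L₁)` of tally languages which does not reduce to it by a function computable
in polynomial time relative to `A`.

Proof. Fix verifiers for the complements of `K₀` and `K₁` and an enumeration of the reductions. Block `n` of the oracle has
two halves; half `i` consists of `j` copies of `2 ^ n` candidates, each of which is a hit with probability `2 ^ (-n)`, so it
has no hit with probability `ρ`, where `4 ^ (-j) ≤ ρ ≤ e ^ (-j)`. The language `L_i` tells for a very sparse sequence of blocks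
that half `i` has no hit; the languages are disjoint if always some half has a hit. Key inequality (`RU/FailC.lean`): if
`K₀` and `K₁` (as defined by the verifiers) have a common element with conditional probability at most `1 / 4` under the
condition that no half has a hit, then each reduction fails at the block with probability at least a constant times `ρ`:
typically the value of the reduction is outside of some `K_i`, this is witnessed by a short certificate, and the hits which
may be added to the other half do not matter. So one wants to use many blocks such that the sum of `ρ` diverges and
the sum of `ρ ^ 2` converges. Whether the assumption is satisfied at a block is decided by brute force, relative to a fixed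
initial segment of the oracle and with a pad given by the next block; if not, the level is not changed. If the pair
`(K₀, K₁)` is disjoint for `A`, then by Lebesgue's density theorem the initial segment can be chosen such that disjointness
fails with conditional probability at most `1 / 8`; at the unsuccessful blocks it fails with conditional probability at
least `1 / 4` under the condition that there are no hits, and these conditions are independent, so by Bessel's inequality
the sum of their probabilities is finite (`RU/Bessel.lean`).
-/

set_option autoImplicit false

namespace Pool.Agent.Results.MP_46935e_lc.RandomOracles

open MeasureTheory Pool.Agent.H628R3.RO

/-- For almost every oracle `A`: for every disjoint `coNP^A` pair `(K₀, K₁)` there is a disjoint `coNP^A` pair of tally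
languages which does not reduce to `(K₀, K₁)` in polynomial time relative to `A`. -/
theorem result : ∀ᵐ A ∂randomOracle, ∀ K₀ K₁ : Set (List Bool), IsPair (IsCoNP A) K₀ K₁ →
    ∃ L₀ L₁ : Set (List Bool), IsPair (IsCoNP A) L₀ L₁ ∧
      (∀ x ∈ L₀ ∪ L₁, x = List.replicate x.length true) ∧ ¬ RedPair A L₀ L₁ K₀ K₁ :=
  Pool.Agent.W2helper58.RU.final_C Pool.Agent.W2helper58.RU.stageHyp

end Pool.Agent.Results.MP_46935e_lc.RandomOracles
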